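import Pool.Agent.TH306.N4.Defs
import Pool.Agent.TH880.NB.Cls

/-!
Interface statements for the theorem `Final` (all nef `L`).  These are definitions of
propositions, to be proved in separate files (theorem `s1 : S1`, …).
-/

set_option autoImplicit false

open MvPolynomial Module Filter Topology

namespace Pool.Agent.TH306.N4

open Pool.Agent.TH279.GR Pool.Agent.TH880.NB Pool.Agent.TH176.Nag

/-- the space of sections of `m L` -/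
noncomputable def SecM {a b : ℕ} {FF : Type} [Field FF] [Algebra ℂ FF] (π : Co a b →ₐ[ℂ] FF)
    (m : ℕ) : Submodule ℂ FF := Submodule.span ℂ {ψ | Sec π m ψ}

/-- S0: `Sec π m` is a finite-dimensional subspace, and a graded ring -/
def S0 : Prop :=
  ∀ (a b : ℕ) (P : Ideal (Co a b)) (i : Fin (a + 1)) (j : Fin (b + 1)) (FF : Type) [Field FF]
    [Algebra ℂ FF] (π : Co a b →ₐ[ℂ] FF), Mod P i j π → ∀ m : ℕ,
    (∀ ψ, ψ ∈ SecM π m ↔ Sec π m ψ) ∧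
    (∀ ψ, Sec π m ψ → ∀ m' ψ', Sec π m' ψ' → Sec π (m + m') (ψ * ψ')) ∧
    (∀ ψ, Sec π m ψ → ∃ F, π F = ψ)

/-- the pencil: `g₁, g₂ ∈ H⁰(k L)` without common zeros except along stable divisors, and
`ℂ(g₁/g₂)` is algebraically closed in the function field -/
structure Pencil {a b : ℕ} {FF : Type} [Field FF] [Algebra ℂ FF] (π : Co a b →ₐ[ℂ] FF) (k : ℕ)
    (g₁ g₂ : FF) : Prop where
  hk : 1 ≤ k
  sec₁ : Sec π k g₁
  sec₂ : Sec π k g₂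
  ne₁ : g₁ ≠ 0
  ne₂ : g₂ ≠ 0
  sat : ∀ m ψ, Sec π (m + k) (g₁ * ψ) → (∃ N : ℕ, Sec π (m + k * N) (g₂ ^ N * ψ)) → Sec π m ψ
  tr : Transcendental ℂ (g₁ / g₂)
  closed : ∀ z : FF, IsAlgebraic (IntermediateField.adjoin ℂ {g₁ / g₂}) z →
    z ∈ IntermediateField.adjoin ℂ {g₁ / g₂}

/-- S1 (helper871, helper508): existence of the pencil -/
def S1 : Prop :=
  ∀ (a b : ℕ) (P : Ideal (Co a b)) (α β γ : ℕ), Surf P α β γ → Normal P →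
    ∀ (i : Fin (a + 1)) (j : Fin (b + 1)) (FF : Type) [Field FF] [Algebra ℂ FF]
    (π : Co a b →ₐ[ℂ] FF), Mod P i j π →
    (∃ c : ℝ, 0 < c ∧ ∃ m₀ : ℕ, ∀ m, m₀ ≤ m → c * (m : ℝ) ^ 2 ≤ finrank ℂ (SecM π m)) →
    ∃ (k : ℕ) (g₁ g₂ : FF), Pencil π k g₁ g₂

/-- S7 (helper279): growth of the sections of a nef `L` -/
def S7 : Prop :=
  ∀ (a b : ℕ) (P : Ideal (Co a b)) (α β γ : ℕ), Surf P α β γ → Nef P →
    ∀ (i : Fin (a + 1)) (j : Fin (b + 1)) (FF : Type) [Field FF] [Algebra ℂ FF]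
    (π : Co a b →ₐ[ℂ] FF), Mod P i j π →
    (∀ m, FiniteDimensional ℂ (SecM π m)) ∧
    ∀ ε : ℝ, 0 < ε → ∃ m₀ : ℕ, ∀ m, m₀ ≤ m →
      ((α : ℝ) - 2 * β + γ - ε) * (m : ℝ) ^ 2 ≤ 2 * finrank ℂ (SecM π m)

/-- S3 (helper508, helper13): growth of the rank over `ℂ(g₁/g₂)` -/
def S3 : Prop :=
  ∀ (a b : ℕ) (P : Ideal (Co a b)) (α β γ : ℕ), Surf P α β γ →
    ∀ (i : Fin (a + 1)) (j : Fin (b + 1)) (FF : Type) [Field FF]
    [Algebra ℂ FF] (π : Co a b →ₐ[ℂ] FF), Mod P i j π →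
    (∀ m, FiniteDimensional ℂ (SecM π m)) → ∀ δ : ℝ, 0 < δ →
    (∀ ε : ℝ, 0 < ε → ∃ m₀ : ℕ, ∀ m, m₀ ≤ m →
      (δ - ε) * (m : ℝ) ^ 2 ≤ 2 * finrank ℂ (SecM π m)) →
    ∀ (k : ℕ) (g₁ g₂ : FF), Pencil π k g₁ g₂ →
    ∀ η : ℝ, 0 < η → ∃ m₀ : ℕ, ∀ m, m₀ ≤ m → (k * δ - η) * m ≤ rk π (g₁ / g₂) m

/-- S4 (helper279 with helper471, helper611; helper493): if the monomials `(i, l)` with
`i < rk (m - k l)` separate jets of order `s` at `n` toric points, the sections of `m L` separate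
jets of order `s` at `n` points of `X` -/
def S4 : Prop :=
  ∀ (a b : ℕ) (P : Ideal (Co a b)) (α β γ : ℕ), Surf P α β γ →
    ∀ (i : Fin (a + 1)) (j : Fin (b + 1)) (FF : Type) [Field FF] [Algebra ℂ FF]
    (π : Co a b →ₐ[ℂ] FF), Mod P i j π → (∀ m, FiniteDimensional ℂ (SecM π m)) →
    ∀ (k : ℕ) (g₁ g₂ : FF), Pencil π k g₁ g₂ →
    ∀ (n m s : ℕ), 1 ≤ s → ∀ T : Finset (ℤ × ℤ), T.card = n * (s + 1).choose 2 →
      Emp (fun _ : Fin n => s) (T : Set (ℤ × ℤ)) →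
      (∀ p ∈ T, 0 ≤ p.1 ∧ 0 ≤ p.2 ∧ (k : ℤ) * p.2 ≤ m ∧
        p.1 < rk π (g₁ / g₂) (m - k * p.2.toNat)) →
      ∃ w : Fin n → Ix a b → ℂ, Tuple i j P w ∧
        SepV (chart i j P) (fun F => Sec π m (π F)) s w

/-- S6 (helper880): the curve inequality, for curves `Q` with `L · Q ≥ 0` -/
def S6 : Prop :=
  ∀ (a b : ℕ) (P : Ideal (Co a b)) (i : Fin (a + 1)) (j : Fin (b + 1)) (FF : Type) [Field FF]
    [Algebra ℂ FF] (π : Co a b →ₐ[ℂ] FF), Mod P i j π →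
    ∀ (n m s : ℕ), 1 ≤ s → ∀ w : Fin n → Ix a b → ℂ, Tuple i j P w → Function.Injective w →
      SepV (chart i j P) (fun F => Sec π m (π F)) s w →
      ∀ (Q : Ideal (Co a b)) (dA dB : ℝ), P ≤ Q → Curv Q dA dB → dB ≤ dA →
        ∀ μ : Fin n → ℝ, (∀ q, IsMult i j Q (w q) (μ q)) →
          ((s : ℝ) - 1) * ∑ q, μ q ≤ m * (dA - dB)

/-- S9 (helper611): openness, countable intersections, injectivity -/
def S9 : Prop :=
  ∀ (a b : ℕ) (P : Ideal (Co a b)), P.IsPrime → BHom P → ∀ (i : Fin (a + 1)) (j : Fin (b + 1)),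
    X (Sum.inl i) ∉ P → X (Sum.inr j) ∉ P → ∀ (V : ℕ → Submodule ℂ (Co a b)) (n : ℕ)
    (s : ℕ → ℕ), (∀ k, 2 ≤ s k) →
    (∀ k, ∃ w : Fin n → Ix a b → ℂ, Tuple i j P w ∧
      SepV (chart i j P) (fun F => F ∈ V k) (s k) w) →
    ∃ H : ℕ → MvPolynomial (Fin n × Ix a b) ℂ,
      (∃ w : Fin n → Ix a b → ℂ, Tuple i j P w ∧ ∀ k, eval (fun p => w p.1 p.2) (H k) ≠ 0) ∧
      ∀ w : Fin n → Ix a b → ℂ, Tuple i j P w →
        (∀ k, eval (fun p => w p.1 p.2) (H k) ≠ 0) →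
        Function.Injective w ∧ ∀ k, SepV (chart i j P) (fun F => F ∈ V k) (s k) w

end Pool.Agent.TH306.N4
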