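import Pool.Agent.TH880.NB.Cls

/-! Numerics: the triangle of the toric input lies inside the rows of the graded system. -/

set_option autoImplicit false

namespace Pool.Agent.TH306.N4

open Pool.Agent.TH880.NB Pool.Agent.TH176.Nag

theorem num {N : ℕ → ℕ} {k r : ℕ} {δ : ℝ} (hk : 1 ≤ k) (hδ : 0 < δ) (hr : (r : ℝ) = (k : ℝ) ^ 2 * δ)
    (hN : ∀ η : ℝ, 0 < η → ∃ m₀ : ℕ, ∀ m : ℕ, m₀ ≤ m → (k * δ - η) * m ≤ N m)
    {n : ℕ} (hn : 1 ≤ n) (hPA : PA n 0 r) {ε : ℝ} (hε : 0 < ε) :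
    ∃ (m s : ℕ) (T : Finset (ℤ × ℤ)), 2 ≤ s ∧ (m : ℝ) * √δ ≤ (1 + ε) * (√n * ((s : ℝ) - 1)) ∧
      T.card = n * (s + 1).choose 2 ∧ Emp (fun _ : Fin n => s) (T : Set (ℤ × ℤ)) ∧
      ∀ p ∈ T, 0 ≤ p.1 ∧ 0 ≤ p.2 ∧ (k : ℤ) * p.2 ≤ m ∧ p.1 < N (m - k * p.2.toNat) := by
  have hk0 : (0 : ℝ) < k := by exact_mod_cast hk
  have hn0 : (0 : ℝ) < n := by exact_mod_cast hn
  have hqn : 0 < √(n : ℝ) := Real.sqrt_pos.2 hn0
  have hqδ : 0 < √δ := Real.sqrt_pos.2 hδ
  have hδδ : √δ * √δ = δ := Real.mul_self_sqrt hδ.le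
  have hqr : √(0 + (r : ℝ)) = k * √δ := by
    rw [zero_add, hr, Real.sqrt_mul (by positivity), Real.sqrt_sq hk0.le]
  obtain ⟨θ, hθ⟩ : ∃ θ : ℝ, θ = ε / (8 + ε) := ⟨_, rfl⟩
  have h8 : 0 < 8 + ε := by linarith
  have hθ0 : 0 < θ := by rw [hθ]; positivity
  have hθ1 : 1 - θ = 8 / (8 + ε) := by rw [hθ]; field_simp; ring
  have hθ2 : 0 < 1 - θ := by rw [hθ1]; positivity
  have hθ3 : (1 + θ) = (1 + ε / 4) * (1 - θ) := by rw [hθ1, hθ]; field_simp; ring
  obtain ⟨η, hη⟩ : ∃ η : ℝ, η = k * δ * θ := ⟨_, rfl⟩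
  have hη0 : 0 < η := by rw [hη]; positivity
  obtain ⟨m₀, hm₀⟩ := hN η hη0
  unfold PA at hPA
  rw [hqr] at hPA
  obtain ⟨s1, hs1⟩ := hPA (√n * (k * √δ) * θ) (by positivity)
  obtain ⟨s2, hs2⟩ := exists_large (η := 3 * ε / 4 * √n) (c := √δ + (1 + ε) * √n) (by positivity)
  obtain ⟨s3, hs3⟩ := exists_large (η := √n * (k * √δ)) (c := k * δ * (k * δ * m₀ / η))
    (by positivity)
  obtain ⟨s, hs⟩ : ∃ s, s = max (max s1 s2) (max s3 2) := ⟨_, rfl⟩
  have hs1' := hs1 s (by rw [hs]; exact (le_max_left _ _).trans (le_max_left _ _)) 0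
  have hs2' := hs2 s (by rw [hs]; exact (le_max_right _ _).trans (le_max_left _ _))
  have hs3' := hs3 s (by rw [hs]; exact (le_max_left _ _).trans (le_max_right _ _))
  have hs4 : 2 ≤ s := by rw [hs]; exact (le_max_right _ _).trans (le_max_right _ _)
  set B : ℝ := (√n * (k * √δ) + √n * (k * √δ) * θ) * s with hB
  have hs0 : (0 : ℝ) < s := by
    have : 0 < s := by omega
    exact_mod_cast this
  have hB0 : 0 ≤ B := by positivity
  -- the degree
  have hkδ : 0 < k * δ - η := by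
    rw [hη, show k * δ - k * δ * θ = k * δ * (1 - θ) by ring]
    positivity
  obtain ⟨m, hm⟩ : ∃ m : ℕ, m = ⌊B / (k * δ - η)⌋₊ + 1 := ⟨_, rfl⟩
  have hm1 : B < (k * δ - η) * m := by
    have h1 := Nat.lt_floor_add_one (B / (k * δ - η))
    rw [div_lt_iff₀ hkδ] at h1
    rw [hm]
    push_cast
    linarith
  have hm2 : (m : ℝ) ≤ B / (k * δ - η) + 1 := by
    have h1 := Nat.floor_le (a := B / (k * δ - η)) (by positivity)
    rw [hm]
    push_cast
    linarith
  have hm3 : k * δ * m₀ / η ≤ m := by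
    have h1 : k * δ * (k * δ * m₀ / η) ≤ k * δ * m := by
      have h2 : √n * (k * √δ) * s ≤ B := by
        rw [hB]
        have : 0 ≤ √n * (k * √δ) * θ * s := by positivity
        nlinarith
      have h3 : (k * δ - η) * m ≤ k * δ * m := by
        have : (0 : ℝ) ≤ m := by positivity
        nlinarith
      linarith
    exact le_of_mul_le_mul_left h1 (by positivity)
  obtain ⟨T, hTS, hTN, hT⟩ := hs1'
  refine ⟨m, s, T, hs4, ?_, hTN, hT, ?_⟩
  · -- the size of `m`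
    have h1 : B / (k * δ - η) = √n / √δ * ((1 + ε / 4) * s) := by
      rw [div_eq_iff hkδ.ne', hB, hη]
      have h2 : √n * (k * √δ) + √n * (k * √δ) * θ = √n * k * √δ * (1 + θ) := by ring
      rw [h2, hθ3]
      have h3 : √n / √δ * ((1 + ε / 4) * s) * (k * δ - k * δ * θ) =
          √n * k * (δ / √δ) * ((1 + ε / 4) * (1 - θ)) * s := by ring
      rw [h3]
      have h4 : δ / √δ = √δ := by
        rw [div_eq_iff hqδ.ne']; exact hδδ.symm
      rw [h4]
    calc (m : ℝ) * √δ ≤ (B / (k * δ - η) + 1) * √δ := by gcongr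
      _ = √n * ((1 + ε / 4) * s) + √δ := by
        rw [h1]; field_simp
      _ ≤ (1 + ε) * (√n * ((s : ℝ) - 1)) := by nlinarith
  · intro p hp
    obtain ⟨h1, h2, h3⟩ := hTS hp
    rw [zero_mul, add_zero] at h2
    rw [zero_add] at h3
    have hp1 : 0 ≤ p.1 := by exact_mod_cast h2
    have h3' : (p.1 : ℝ) ≤ B - r * (p.2 : ℝ) := h3
    obtain ⟨l, hl⟩ : ∃ l : ℕ, (l : ℤ) = p.2 := ⟨p.2.toNat, Int.toNat_of_nonneg h1⟩
    have hl' : p.2.toNat = l := by omega
    have hlr : ((p.2 : ℤ) : ℝ) = l := by rw [← hl]; push_cast; rfl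
    rw [hlr] at h3'
    have hp1r : (0 : ℝ) ≤ p.1 := by exact_mod_cast hp1
    -- `k l ≤ B / (k δ)`
    have h4 : k * δ * (k * l : ℝ) ≤ B := by
      have h40 : (r : ℝ) * l ≤ B := by linarith
      rw [hr] at h40
      have h41 : k * δ * (k * l : ℝ) = (k : ℝ) ^ 2 * δ * l := by ring
      rw [h41]
      exact h40
    have h5 : k * δ * (k * l : ℝ) ≤ k * δ * m - η * m := by
      have : (k * δ - η) * m = k * δ * m - η * m := by ring
      linarith
    have hm0' : (0 : ℝ) ≤ m := by positivity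
    have hηm : 0 ≤ η * m := by positivity
    have h6 : (k * l : ℝ) ≤ m := by
      have h60 : k * δ * (k * l : ℝ) ≤ k * δ * m := by linarith
      exact le_of_mul_le_mul_left h60 (by positivity)
    have h7 : k * l ≤ m := by exact_mod_cast h6
    have h8 : (m₀ : ℝ) ≤ m - k * l := by
      have h9 : k * δ * m₀ ≤ η * m := by
        rw [div_le_iff₀ hη0] at hm3
        linarith
      have h10 : k * δ * (m₀ : ℝ) ≤ k * δ * (m - k * l) := by
        have h100 : k * δ * ((m : ℝ) - k * l) = k * δ * m - k * δ * (k * l) := by ring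
        rw [h100]
        linarith
      exact le_of_mul_le_mul_left h10 (by positivity)
    have h9 : m₀ ≤ m - k * l := by
      have : ((m₀ + k * l : ℕ) : ℝ) ≤ m := by push_cast; linarith
      have : m₀ + k * l ≤ m := by exact_mod_cast this
      omega
    have h10 := hm₀ _ h9
    have h11 : ((m - k * l : ℕ) : ℝ) = m - k * l := by
      rw [Nat.cast_sub h7]; push_cast; ring
    rw [h11] at h10
    refine ⟨hp1, h1, ?_, ?_⟩
    · rw [← hl]; exact_mod_cast h7
    · rw [hl']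
      have h12 : (p.1 : ℝ) < N (m - k * l) := by
        refine lt_of_lt_of_le ?_ h10
        have h13 : (r : ℝ) * l = k * δ * (k * l) := by rw [hr]; ring
        have h14 : 0 ≤ η * (k * l : ℝ) := by positivity
        have h15 : (k * δ - η) * ((m : ℝ) - k * l) =
            (k * δ - η) * m - k * δ * (k * l) + η * (k * l) := by ring
        rw [h15]
        linarith
      exact_mod_cast h12

end Pool.Agent.TH306.N4
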