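import Pool.Agent.TH306.N4.Stmts
import Pool.Agent.TH306.N4.Num

/-! The assembly of `Final` from the interface statements. -/

set_option autoImplicit false

open MvPolynomial Module Filter Topology

namespace Pool.Agent.TH306.N4

open Pool.Agent.TH279.GR Pool.Agent.TH880.NB Pool.Agent.TH176.Nag

variable {a b : ℕ}

/-- if all `x_i` or all `y_j` are in `P`, the Hilbert function vanishes -/
theorem hf_eq_zero_of {P : Ideal (Co a b)}
    (h : (∀ i, X (Sum.inl i) ∈ P) ∨ ∀ j, X (Sum.inr j) ∈ P) {t : ℕ} (ht : 1 ≤ t) :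
    hf P t t = 0 := by
  have h1 : bh a b t t ≤ P.restrictScalars ℂ := by
    intro f hf
    have hfw : IsWeightedHomogeneous (wt a b) f (t, t) := (mem_weightedHomogeneousSubmodule _ _ _ _).1 hf
    rw [Submodule.restrictScalars_mem, f.as_sum]
    refine Ideal.sum_mem _ fun d hd => ?_
    have hd' := hfw (mem_support_iff.1 hd)
    -- some variable of each kind divides the monomial
    have key : ∃ k, d k ≠ 0 ∧ X k ∈ P := by
      rcases h with h | h
      · by_contra hcon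
        push Not at hcon
        have h2 : ∀ i, d (Sum.inl i) = 0 := fun i => by
          by_contra h3
          exact hcon _ h3 (h i)
        have h3 : (Finsupp.weight (wt a b) d).1 = 0 := by
          rw [Finsupp.weight_apply, Finsupp.sum, Prod.fst_sum]
          refine Finset.sum_eq_zero fun k _ => ?_
          rcases k with k | k
          · rw [h2 k]; simp
          · simp [wt]
        rw [hd'] at h3
        simp at h3
        omega
      · by_contra hcon
        push Not at hcon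
        have h2 : ∀ i, d (Sum.inr i) = 0 := fun i => by
          by_contra h3
          exact hcon _ h3 (h i)
        have h3 : (Finsupp.weight (wt a b) d).2 = 0 := by
          rw [Finsupp.weight_apply, Finsupp.sum, Prod.snd_sum]
          refine Finset.sum_eq_zero fun k _ => ?_
          rcases k with k | k
          · simp [wt]
          · rw [h2 k]; simp
        rw [hd'] at h3
        simp at h3
        omega
    obtain ⟨k, hk, hkP⟩ := key
    have h2 : (monomial d (coeff d f) : Co a b) = X k * monomial (d - Finsupp.single k 1) (coeff d f) := by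
      have e : Finsupp.single k 1 + (d - Finsupp.single k 1) = d := by
        ext l
        rw [Finsupp.add_apply, Finsupp.tsub_apply, Finsupp.single_apply]
        split_ifs with hkl
        · subst hkl; omega
        · omega
      rw [X, monomial_mul, one_mul, e]
    rw [h2]
    exact Ideal.mul_mem_right _ _ hkP
  unfold hf
  have h2 : (bh a b t t).map (Ideal.Quotient.mkₐ ℂ P).toLinearMap = ⊥ := by
    rw [eq_bot_iff]
    rintro _ ⟨f, hf, rfl⟩
    rw [Submodule.mem_bot]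
    exact Ideal.Quotient.eq_zero_iff_mem.2 (h1 hf)
  rw [h2, finrank_bot]

theorem exists_ij {P : Ideal (Co a b)} {α β γ : ℝ} (hX : Surf P α β γ) :
    ∃ i j, X (Sum.inl i) ∉ P ∧ X (Sum.inr j) ∉ P := by
  by_contra hcon
  push Not at hcon
  have h1 : (∀ i, X (Sum.inl i) ∈ P) ∨ ∀ j, X (Sum.inr j) ∈ P := by
    by_contra h
    push Not at h
    obtain ⟨⟨i, hi⟩, j, hj⟩ := h
    exact hj (hcon i j hi)
  have h2 := hX.growth 1 1 le_rfl le_rfl
  have h3 : Tendsto (fun t : ℕ => 2 * (hf P (1 * t) (1 * t) : ℝ) / (t : ℝ) ^ 2) atTop (𝓝 0) := by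
    refine tendsto_const_nhds.congr' ?_
    filter_upwards [eventually_ge_atTop 1] with t ht
    rw [one_mul, hf_eq_zero_of h1 ht]
    simp
  have h4 := tendsto_nhds_unique h2 h3
  have := hX.pos
  push_cast at h4
  linarith

theorem le_of_forall_eps {x y : ℝ} (h : ∀ k : ℕ, x ≤ (1 + 1 / ((k : ℝ) + 1)) * y) :
    x ≤ y := by
  have h1 : Tendsto (fun k : ℕ => (1 + 1 / ((k : ℝ) + 1)) * y) atTop (𝓝 ((1 + 0) * y)) :=
    (tendsto_const_nhds.add tendsto_one_div_add_atTop_nhds_zero_nat).mul_const y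
  rw [add_zero, one_mul] at h1
  exact ge_of_tendsto' h1 h

/-- **The assembly.** -/
theorem final_of (h0 : S0) (h1 : S1) (h3 : S3) (h4 : S4) (h6 : S6) (h7 : S7) (h9 : S9)
    (hmod : ∀ (a b : ℕ) (P : Ideal (Co a b)) (i : Fin (a + 1)) (j : Fin (b + 1)), P.IsPrime →
      BHom P → X (Sum.inl i) ∉ P → X (Sum.inr j) ∉ P → ∃ (FF : Type) (_ : Field FF)
        (_ : Algebra ℂ FF) (π : Co a b →ₐ[ℂ] FF), Mod P i j π)
    (hPA : ∀ r n : ℕ, 1 ≤ r → 4 * r ≤ n → 9 ≤ n → PA n 0 r) : Final := by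
  intro a b P α β γ hX hN hnef hL
  refine ⟨exists_ij hX, ?_⟩
  obtain ⟨δ, hδ⟩ : ∃ δ : ℕ, δ + 2 * β = α + γ := ⟨α + γ - 2 * β, by omega⟩
  have hδ1 : 1 ≤ δ := by omega
  have hδr : ((α : ℝ) - 2 * β + γ) = δ := by
    have : ((δ + 2 * β : ℕ) : ℝ) = ((α + γ : ℕ) : ℝ) := by rw [hδ]
    push_cast at this
    linarith
  have hδ0 : (0 : ℝ) < δ := by exact_mod_cast hδ1
  have hqδ : 0 < √(δ : ℝ) := Real.sqrt_pos.2 hδ0
  have key : ∀ p : Fin (a + 1) × Fin (b + 1), ∃ n₀ : ℕ, ∀ n, n₀ ≤ n → X (Sum.inl p.1) ∉ P →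
      X (Sum.inr p.2) ∉ P →
      ∃ H : ℕ → MvPolynomial (Fin n × Ix a b) ℂ,
        (∃ w : Fin n → Ix a b → ℂ, Tuple p.1 p.2 P w ∧
          ∀ k, eval (fun p => w p.1 p.2) (H k) ≠ 0) ∧
        ∀ w : Fin n → Ix a b → ℂ, Tuple p.1 p.2 P w →
          (∀ k, eval (fun p => w p.1 p.2) (H k) ≠ 0) →
          Function.Injective w ∧
          ∀ (Q : Ideal (Co a b)) (dA dB : ℝ), P ≤ Q → Curv Q dA dB →
            ∀ m : Fin n → ℝ, (∀ q, IsMult p.1 p.2 Q (w q) (m q)) →
              √(((α : ℝ) - 2 * β + γ) / n) * ∑ q, m q ≤ dA - dB := by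
    rintro ⟨i, j⟩
    by_cases hi : X (Sum.inl i) ∈ P
    · exact ⟨0, fun n _ h => absurd hi h⟩
    by_cases hj : X (Sum.inr j) ∈ P
    · exact ⟨0, fun n _ _ h => absurd hj h⟩
    obtain ⟨FF, _, _, π, hπ⟩ := hmod a b P i j hX.prime hX.hom hi hj
    obtain ⟨hfin, hgr⟩ := h7 a b P α β γ hX hnef i j FF π hπ
    rw [hδr] at hgr
    obtain ⟨k, g₁, g₂, hP⟩ := h1 a b P α β γ hX hN i j FF π hπ (by
      obtain ⟨m₀, hm₀⟩ := hgr (δ / 2) (by positivity)
      refine ⟨δ / 4, by positivity, m₀, fun m hm => ?_⟩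
      have := hm₀ m hm
      linarith)
    have hrk := h3 a b P α β γ hX i j FF π hπ hfin δ hδ0 hgr k g₁ g₂ hP
    have hk := hP.hk
    obtain ⟨r, hr⟩ : ∃ r : ℕ, r = k ^ 2 * δ := ⟨_, rfl⟩
    have hr1 : 1 ≤ r := by
      rw [hr]
      exact Nat.one_le_iff_ne_zero.2 (by positivity)
    have hrr : (r : ℝ) = (k : ℝ) ^ 2 * δ := by rw [hr]; push_cast; rfl
    refine ⟨max 9 (4 * r), fun n hn _ _ => ?_⟩
    have hn9 : 9 ≤ n := (le_max_left _ _).trans hn
    have hn1 : 1 ≤ n := by omega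
    have hn0 : (0 : ℝ) < n := by exact_mod_cast hn1
    have hqn : 0 < √(n : ℝ) := Real.sqrt_pos.2 hn0
    have hPAn := hPA r n hr1 ((le_max_right _ _).trans hn) hn9
    choose m s T hs hnum hTc hTE hT using fun κ : ℕ =>
      num hk hδ0 hrr hrk hn1 hPAn (ε := 1 / ((κ : ℝ) + 1)) (by positivity)
    have hsec : ∀ κ : ℕ, ∃ w : Fin n → Ix a b → ℂ, Tuple i j P w ∧
        SepV (chart i j P) (fun F => Sec π (m κ) (π F)) (s κ) w := fun κ =>
      h4 a b P α β γ hX i j FF π hπ hfin k g₁ g₂ hP n (m κ) (s κ)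
        (by have := hs κ; omega) (T κ) (hTc κ) (hTE κ) (hT κ)
    have hVeq : ∀ κ, (fun F : Co a b => F ∈ (SecM π (m κ)).comap π.toLinearMap) =
        fun F => Sec π (m κ) (π F) := fun κ => by
      funext F
      exact propext ((h0 a b P i j FF π hπ (m κ)).1 (π F))
    obtain ⟨H, hH1, hH2⟩ := h9 a b P hX.prime hX.hom i j hi hj
      (fun κ => (SecM π (m κ)).comap π.toLinearMap) n s hs (fun κ => by
        rw [hVeq κ]
        exact hsec κ)
    refine ⟨H, hH1, fun w hw hHw => ?_⟩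
    obtain ⟨hinj, hsep⟩ := hH2 w hw hHw
    refine ⟨hinj, fun Q dA dB hPQ hQ μ hμ => ?_⟩
    have hd : dB ≤ dA := hnef Q dA dB hPQ hQ
    rw [hδr]
    have hμ' : √((δ : ℝ) / n) * ∑ q, μ q = (√(δ : ℝ) * ∑ q, μ q) / √(n : ℝ) := by
      rw [Real.sqrt_div hδ0.le]; ring
    rw [hμ', div_le_iff₀ hqn]
    have hall : ∀ κ : ℕ, √(δ : ℝ) * ∑ q, μ q ≤
        (1 + 1 / ((κ : ℝ) + 1)) * ((dA - dB) * √(n : ℝ)) := by
      intro κ
      have hsepκ := hsep κ
      rw [hVeq κ] at hsepκ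
      have h61 := h6 a b P i j FF π hπ n (m κ) (s κ) (by have := hs κ; omega) w hw hinj hsepκ Q dA
        dB hPQ hQ hd μ hμ
      have hs1 : (1 : ℝ) < s κ := by exact_mod_cast hs κ
      have h62 : ((s κ : ℝ) - 1) * (√(δ : ℝ) * ∑ q, μ q) ≤
          ((s κ : ℝ) - 1) * ((1 + 1 / ((κ : ℝ) + 1)) * ((dA - dB) * √(n : ℝ))) := by
        calc ((s κ : ℝ) - 1) * (√(δ : ℝ) * ∑ q, μ q) =
            √(δ : ℝ) * (((s κ : ℝ) - 1) * ∑ q, μ q) := by ring
          _ ≤ √(δ : ℝ) * (m κ * (dA - dB)) := mul_le_mul_of_nonneg_left h61 hqδ.le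
          _ = (m κ * √(δ : ℝ)) * (dA - dB) := by ring
          _ ≤ ((1 + 1 / ((κ : ℝ) + 1)) * (√(n : ℝ) * ((s κ : ℝ) - 1))) * (dA - dB) :=
            mul_le_mul_of_nonneg_right (hnum κ) (by linarith)
          _ = _ := by ring
      exact le_of_mul_le_mul_left h62 (by linarith)
    exact le_of_forall_eps hall
  choose N hNN using key
  exact ⟨Finset.univ.sup N, fun n hn i j hi hj =>
    hNN (i, j) n ((Finset.le_sup (f := N) (Finset.mem_univ (i, j))).trans hn) hi hj⟩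

end Pool.Agent.TH306.N4
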