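import Pool.Agent.TH306.N4.StmtsU

/-!
Interface statements for sections of `m A - p B` (bidegree `(m, -p)`).
-/

set_option autoImplicit false

open MvPolynomial Module Filter Topology

namespace Pool.Agent.TH306.N4

open Pool.Agent.TH279.GR

section

variable {a b : ℕ} {FF : Type} [Field FF] [Algebra ℂ FF]

/-- the sections of `m A - p B` -/
def Sec2 (π : Co a b →ₐ[ℂ] FF) (m p : ℕ) (ψ : FF) : Prop :=
  ∃ c : ℕ, ∀ f ∈ TT π c (c + p), ψ * f ∈ TT π (c + m) c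

/-- the space of sections of `m A - p B` -/
noncomputable def SecM2 (π : Co a b →ₐ[ℂ] FF) (m p : ℕ) : Submodule ℂ FF :=
  Submodule.span ℂ {ψ | Sec2 π m p ψ}

/-- the bihomogeneous ideal of the divisor of the section `π F` of `m A - p B` -/
noncomputable def divI2 (P : Ideal (Co a b)) (π : Co a b →ₐ[ℂ] FF) (m p : ℕ) (F : Co a b) :
    Ideal (Co a b) :=
  P ⊔ Ideal.span {f | ∃ u v : ℕ, f ∈ bh a b (u + m) v ∧ ∃ g ∈ bh a b u (v + p),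
    π f = π F * π g}

end

/-- V0: `Sec2 π m p` is a subspace, contained in the image of `π` -/
def V0 : Prop :=
  ∀ (a b : ℕ) (P : Ideal (Co a b)) (i : Fin (a + 1)) (j : Fin (b + 1)) (FF : Type) [Field FF]
    [Algebra ℂ FF] (π : Co a b →ₐ[ℂ] FF), Mod P i j π → ∀ m p : ℕ,
    (∀ ψ, ψ ∈ SecM2 π m p ↔ Sec2 π m p ψ) ∧ (∀ ψ, Sec2 π m p ψ → ∃ F, π F = ψ)

/-- V2 (helper880) -/
def V2 : Prop :=
  ∀ (a b : ℕ) (P : Ideal (Co a b)) (i : Fin (a + 1)) (j : Fin (b + 1)) (FF : Type) [Field FF]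
    [Algebra ℂ FF] (π : Co a b →ₐ[ℂ] FF), Mod P i j π → ∀ (m p : ℕ) (F : Co a b),
    Sec2 π m p (π F) → π F ≠ 0 →
    BHom (divI2 P π m p F) ∧ P < divI2 P π m p F ∧
    chart i j (divI2 P π m p F) = chart i j P ⊔ Ideal.span {F} ∧
    ∃ n₀ : ℕ, ∀ u v, n₀ ≤ u → n₀ ≤ v →
      hf (divI2 P π m p F) (u + m) v + hf P u (v + p) = hf P (u + m) v

/-- V3 (helper862): the degrees of the components of the divisor of a section of `m A - p B` -/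
def V3 : Prop :=
  ∀ (a b : ℕ) (P : Ideal (Co a b)) (α β γ : ℕ), Surf P α β γ → ∀ (m p : ℕ) (N : Ideal (Co a b)),
    BHom N → P < N →
    (∃ n₀ : ℕ, ∀ u v, n₀ ≤ u → n₀ ≤ v → hf N (u + m) v + hf P u (v + p) = hf P (u + m) v) →
    ∀ l : List (Ideal (Co a b) × ℕ × ℕ), Chain N ⊤ l → ∀ dA dB : Ideal (Co a b) → ℕ,
    (∀ t ∈ l, Rel t.1 → ∃ c0 : ℤ, Lin t.1 (dA t.1) (dB t.1) c0) →
    (∀ t ∈ l, ¬ Rel t.1 → dA t.1 = 0 ∧ dB t.1 = 0) →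
    (l.map fun t => (dA t.1 : ℝ) - dB t.1).sum = m * ((α : ℝ) - β) - p * ((β : ℝ) - γ)

/-- V7 (helper279): growth of the sections of `m A - p B`, `p ≤ m`, for nef `A - B` -/
def V7 : Prop :=
  ∀ (a b : ℕ) (P : Ideal (Co a b)) (α β γ : ℕ), Surf P α β γ → Nef P →
    ∀ (i : Fin (a + 1)) (j : Fin (b + 1)) (FF : Type) [Field FF] [Algebra ℂ FF]
    (π : Co a b →ₐ[ℂ] FF), Mod P i j π →
    (∀ m p, FiniteDimensional ℂ (SecM2 π m p)) ∧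
    ∀ ε : ℝ, 0 < ε → ∃ m₀ : ℕ, ∀ m, m₀ ≤ m → ∀ p, p ≤ m →
      (α : ℝ) * m ^ 2 - 2 * β * m * p + γ * p ^ 2 - ε * (m : ℝ) ^ 2 ≤ 2 * finrank ℂ (SecM2 π m p)

/-- a section with many zeros gives a curve -/
def UpperG : Prop :=
  ∀ (a b : ℕ) (P : Ideal (Co a b)) (α β γ : ℕ), Surf P α β γ → Nef P →
    ∀ (i : Fin (a + 1)) (j : Fin (b + 1)) (FF : Type) [Field FF] [Algebra ℂ FF]
    (π : Co a b →ₐ[ℂ] FF), Mod P i j π → ∀ n : ℕ, 1 ≤ n →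
    ∀ w : Fin n → Ix a b → ℂ, Tuple i j P w → (∀ q, SmoothAt P i j (w q)) →
      ∀ m p s : ℕ, 1 ≤ s → n * (s * (s + 1) / 2) < finrank ℂ (SecM2 π m p) →
      ∃ (Q : Ideal (Co a b)) (dA dB : ℝ) (μ : Fin n → ℝ), P ≤ Q ∧
        Curv Q dA dB ∧ (∀ q, IsMult i j Q (w q) (μ q)) ∧ 0 < ∑ q, μ q ∧
        (dA - dB) * (n * s) ≤ (m * ((α : ℝ) - β) - p * ((β : ℝ) - γ)) * ∑ q, μ q

/-- `L² ≥ 0` for nef `L` -/
def SqNonneg : Prop :=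
  ∀ (a b : ℕ) (P : Ideal (Co a b)) (α β γ : ℕ), Surf P α β γ → Nef P → 2 * β ≤ α + γ

end Pool.Agent.TH306.N4
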