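import Pool.Agent.TH306.N4.Stmts

/-!
Interface statements for the upper bound `ε(n; X, L) ≤ √(L²/n)`.
-/

set_option autoImplicit false

open MvPolynomial Module Filter Topology

namespace Pool.Agent.TH306.N4

open Pool.Agent.TH279.GR

/-- the bihomogeneous ideal of the divisor of the section `π F` of `m L` -/
noncomputable def divI {a b : ℕ} {FF : Type} [Field FF] [Algebra ℂ FF] (P : Ideal (Co a b))
    (π : Co a b →ₐ[ℂ] FF) (m : ℕ) (F : Co a b) : Ideal (Co a b) :=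
  P ⊔ Ideal.span {f | ∃ u v : ℕ, f ∈ bh a b (u + m) v ∧ ∃ g ∈ bh a b u (v + m),
    π f = π F * π g}

/-- U2 (helper880) -/
def U2 : Prop :=
  ∀ (a b : ℕ) (P : Ideal (Co a b)) (i : Fin (a + 1)) (j : Fin (b + 1)) (FF : Type) [Field FF]
    [Algebra ℂ FF] (π : Co a b →ₐ[ℂ] FF), Mod P i j π → ∀ (m : ℕ) (F : Co a b),
    Sec π m (π F) → π F ≠ 0 →
    BHom (divI P π m F) ∧ P < divI P π m F ∧
    chart i j (divI P π m F) = chart i j P ⊔ Ideal.span {F} ∧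
    ∃ n₀ : ℕ, ∀ u v, n₀ ≤ u → n₀ ≤ v →
      hf (divI P π m F) (u + m) v + hf P u (v + m) = hf P (u + m) v

/-- U3 (helper692): the degrees of the components of the divisor of a section of `m L` -/
def U3 : Prop :=
  ∀ (a b : ℕ) (P : Ideal (Co a b)) (α β γ : ℕ), Surf P α β γ → ∀ (m : ℕ) (N : Ideal (Co a b)),
    BHom N → P < N →
    (∃ n₀ : ℕ, ∀ u v, n₀ ≤ u → n₀ ≤ v → hf N (u + m) v + hf P u (v + m) = hf P (u + m) v) →
    ∀ l : List (Ideal (Co a b) × ℕ × ℕ), Chain N ⊤ l → ∀ dA dB : Ideal (Co a b) → ℕ,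
    (∀ t ∈ l, Rel t.1 → ∃ c0 : ℤ, Lin t.1 (dA t.1) (dB t.1) c0) →
    (∀ t ∈ l, ¬ Rel t.1 → dA t.1 = 0 ∧ dB t.1 = 0) →
    (l.map fun t => (dA t.1 : ℝ) - dB t.1).sum = m * ((α : ℝ) - 2 * β + γ)

/-- the point `w` of the chart of `X` is smooth -/
def SmoothAt {a b : ℕ} (P : Ideal (Co a b)) (i : Fin (a + 1)) (j : Fin (b + 1))
    (w : Ix a b → ℂ) : Prop :=
  ∀ K : ℕ, finrank ℂ (Co a b ⧸ (chart i j P ⊔ mx w ^ K)) = K * (K + 1) / 2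

/-- U4 (helper471, helper611): the points of a non-empty open set are smooth -/
def U4 : Prop :=
  ∀ (a b : ℕ) (P : Ideal (Co a b)) (α β γ : ℕ), Surf P α β γ → ∀ (i : Fin (a + 1))
    (j : Fin (b + 1)), X (Sum.inl i) ∉ P → X (Sum.inr j) ∉ P →
    ∃ h : Co a b, h ∉ chart i j P ∧ ∀ w : Ix a b → ℂ, (∀ f ∈ chart i j P, eval w f = 0) →
      eval w h ≠ 0 → SmoothAt P i j w

/-- U5 (helper471): the multiplicity of the divisor of a section -/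
def U5 : Prop :=
  ∀ (a b : ℕ) (P : Ideal (Co a b)) (i : Fin (a + 1)) (j : Fin (b + 1)) (w : Ix a b → ℂ),
    P.IsPrime → BHom P → (∀ f ∈ chart i j P, eval w f = 0) → SmoothAt P i j w →
    ∀ (s : ℕ) (F : Co a b), F ∈ chart i j P ⊔ mx w ^ s → F ∉ chart i j P →
    ∀ N : Ideal (Co a b), BHom N → chart i j N = chart i j P ⊔ Ideal.span {F} →
    ∀ l : List (Ideal (Co a b) × ℕ × ℕ), Chain N ⊤ l → ∀ μ : Ideal (Co a b) → ℝ,
    (∀ t ∈ l, IsMult i j t.1 w (μ t.1)) → (s : ℝ) ≤ (l.map fun t => μ t.1).sum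

/-- U6 (helper611): existence of the Hilbert–Samuel multiplicity -/
def U6 : Prop :=
  ∀ (a b : ℕ) (P : Ideal (Co a b)) (α β γ : ℕ), Surf P α β γ → ∀ (i : Fin (a + 1))
    (j : Fin (b + 1)) (w : Ix a b → ℂ), (∀ f ∈ chart i j P, eval w f = 0) → SmoothAt P i j w →
    ∀ Q : Ideal (Co a b), Q.IsPrime → BHom Q → P < Q →
    (∃ μ : ℝ, 0 ≤ μ ∧ IsMult i j Q w μ) ∧
    ((¬ Rel Q ∨ ∃ c0 : ℤ, Lin Q 0 0 c0) → IsMult i j Q w 0)

/-- **The upper bound.** -/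
def Upper : Prop :=
  ∀ (a b : ℕ) (P : Ideal (Co a b)) (α β γ : ℕ), Surf P α β γ → Nef P → 2 * β < α + γ →
    ∀ i j, X (Sum.inl i) ∉ P → X (Sum.inr j) ∉ P → ∀ n : ℕ, 1 ≤ n →
    ∀ w : Fin n → Ix a b → ℂ, Tuple i j P w → (∀ q, SmoothAt P i j (w q)) →
      ∀ ε : ℝ, 0 < ε → ∃ (Q : Ideal (Co a b)) (dA dB : ℝ) (μ : Fin n → ℝ), P ≤ Q ∧
        Curv Q dA dB ∧ (∀ q, IsMult i j Q (w q) (μ q)) ∧ 0 < ∑ q, μ q ∧
        dA - dB ≤ (√(((α : ℝ) - 2 * β + γ) / n) + ε) * ∑ q, μ q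

end Pool.Agent.TH306.N4
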