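import Pool.Agent.TH306.N4.Fin
import Pool.Agent.TH306.N4.StmtsU
import Pool.Agent.TH611.M5.S9

/-! The two-sided final statement. -/

set_option autoImplicit false

open MvPolynomial Module Filter Topology

namespace Pool.Agent.TH306.N4

open Pool.Agent.TH279.GR Pool.Agent.TH611.M5

/-- the ratios `L·C / ∑ mult_{w_q} C`, over the integral curves `C ⊂ X` through at least one
`w_q` -/
def ratios {a b n : ℕ} (i : Fin (a + 1)) (j : Fin (b + 1)) (P : Ideal (Co a b))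
    (w : Fin n → Ix a b → ℂ) : Set ℝ :=
  {x | ∃ (Q : Ideal (Co a b)) (dA dB : ℝ) (μ : Fin n → ℝ), P ≤ Q ∧ Curv Q dA dB ∧
    (∀ q, IsMult i j Q (w q) (μ q)) ∧ 0 < ∑ q, μ q ∧ x = (dA - dB) / ∑ q, μ q}

/-- **The two-sided final statement.** -/
def FinalE : Prop :=
  ∀ (a b : ℕ) (P : Ideal (Co a b)) (α β γ : ℕ), Surf P α β γ → Normal P → Nef P →
    2 * β < α + γ →
    (∃ i j, X (Sum.inl i) ∉ P ∧ X (Sum.inr j) ∉ P) ∧
    ∃ n₀ : ℕ, ∀ n, n₀ ≤ n → ∀ i j, X (Sum.inl i) ∉ P → X (Sum.inr j) ∉ P →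
      ∃ H : ℕ → MvPolynomial (Fin n × Ix a b) ℂ,
        (∃ w : Fin n → Ix a b → ℂ, Tuple i j P w ∧ ∀ k, eval (fun p => w p.1 p.2) (H k) ≠ 0) ∧
        ∀ w : Fin n → Ix a b → ℂ, Tuple i j P w →
          (∀ k, eval (fun p => w p.1 p.2) (H k) ≠ 0) →
          Function.Injective w ∧ IsGLB (ratios i j P w) (√(((α : ℝ) - 2 * β + γ) / n))

theorem finalE_of (hF : Final) (hU : Upper) (h4 : U4) : FinalE := by
  classical
  intro a b P α β γ hX hN hnef hL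
  obtain ⟨h1, n₀, h2⟩ := hF a b P α β γ hX hN hnef hL
  refine ⟨h1, max n₀ 1, fun n hn i j hi hj => ?_⟩
  have hn1 : 1 ≤ n := (le_max_right _ _).trans hn
  obtain ⟨H, ⟨w0, hw0, hw0H⟩, hH⟩ := h2 n ((le_max_left _ _).trans hn) i j hi hj
  obtain ⟨h, hh, hsm⟩ := h4 a b P α β γ hX i j hi hj
  have hJ := chart_prime hX.prime hX.hom hi hj
  obtain ⟨z, hz, hzh⟩ := exists_point_countable (ι := Unit) (chart i j P) hJ (fun _ => h)
    (fun _ => hh)
  let H' : ℕ → MvPolynomial (Fin n × Ix a b) ℂ := fun k =>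
    Nat.casesOn k (∏ q : Fin n, rename (fun t => (q, t)) h) H
  have hev : ∀ w : Fin n → Ix a b → ℂ, eval (fun p => w p.1 p.2) (H' 0) =
      ∏ q, eval (w q) h := by
    intro w
    show eval (fun p => w p.1 p.2) (∏ q : Fin n, rename (fun t => (q, t)) h) = _
    rw [map_prod]
    refine Finset.prod_congr rfl fun q _ => ?_
    rw [eval_rename]
    rfl
  obtain ⟨w1, hw1, hw1H⟩ := exists_tuple_countable (chart i j P) hJ H' (fun k => by
    rcases k with _ | k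
    · refine ⟨fun _ => z, fun _ => hz, ?_⟩
      exact ne_of_eq_of_ne (hev fun _ => z) (Finset.prod_ne_zero_iff.2 fun q _ => hzh ())
    · exact ⟨w0, tuple_iff.1 hw0, hw0H k⟩)
  refine ⟨H', ⟨w1, tuple_iff.2 hw1, hw1H⟩, fun w hw hwH => ?_⟩
  obtain ⟨hinj, hlow⟩ := hH w hw (fun k => hwH (k + 1))
  refine ⟨hinj, ?_⟩
  have hsmq : ∀ q, SmoothAt P i j (w q) := by
    intro q
    refine hsm (w q) (tuple_iff.1 hw q) ?_
    have h3 := hwH 0
    rw [hev] at h3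
    exact Finset.prod_ne_zero_iff.1 h3 q (Finset.mem_univ q)
  have hup := hU a b P α β γ hX hnef hL i j hi hj n hn1 w hw hsmq
  constructor
  · rintro x ⟨Q, dA, dB, μ, hPQ, hQ, hμ, hpos, rfl⟩
    rw [le_div_iff₀ hpos]
    exact hlow Q dA dB hPQ hQ μ hμ
  · intro y hy
    refine le_of_forall_pos_le_add fun ε hε => ?_
    obtain ⟨Q, dA, dB, μ, hPQ, hQ, hμ, hpos, hle⟩ := hup ε hε
    refine (hy ⟨Q, dA, dB, μ, hPQ, hQ, hμ, hpos, rfl⟩).trans ?_
    rw [div_le_iff₀ hpos]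
    exact hle

end Pool.Agent.TH306.N4
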