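import Pool.Agent.TH279.GR.Defs

/-!
# Multi-point Seshadri constants of nef divisors: charts, multiplicities, sections

`X ⊂ P^a × P^b` is given by a bihomogeneous prime ideal `P` of `Co a b = ℂ[x_0..x_a, y_0..y_b]`
(`Pool.Agent.TH279.GR.Surf`), `A = O(1, 0)`, `B = O(0, 1)`, `L = A - B`.
-/

set_option autoImplicit false

open MvPolynomial Module Filter Topology

namespace Pool.Agent.TH306.N4

open Pool.Agent.TH279.GR

variable {a b : ℕ}

/-- the ideal of the affine chart `x_i = 1`, `y_j = 1` -/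
noncomputable def chart (i : Fin (a + 1)) (j : Fin (b + 1)) (P : Ideal (Co a b)) :
    Ideal (Co a b) :=
  P ⊔ Ideal.span {X (Sum.inl i) - 1, X (Sum.inr j) - 1}

/-- `X` is normal: the coordinate rings of its affine charts are integrally closed -/
def Normal (P : Ideal (Co a b)) : Prop :=
  ∀ i j, X (Sum.inl i) ∉ P → X (Sum.inr j) ∉ P → IsIntegrallyClosed (Co a b ⧸ chart i j P)

/-- the maximal ideal of a point -/
noncomputable def mx {σ : Type} (w : σ → ℂ) : Ideal (MvPolynomial σ ℂ) :=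
  Ideal.span (Set.range fun t => X t - C (w t))

/-- `m` is the Hilbert–Samuel multiplicity `lim dim (O_w / 𝔪_w ^ K) / K` at the point `w` (with
`x_i = 1`, `y_j = 1`) of the curve with ideal `Q` -/
def IsMult (i : Fin (a + 1)) (j : Fin (b + 1)) (Q : Ideal (Co a b)) (w : Ix a b → ℂ) (m : ℝ) :
    Prop :=
  Tendsto (fun K : ℕ => (finrank ℂ (Co a b ⧸ (chart i j Q ⊔ mx w ^ K)) : ℝ) / K) atTop (𝓝 m)

/-- the `n`-tuples of points of the chart `x_i = 1`, `y_j = 1` of `X` -/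
def Tuple {n : ℕ} (i : Fin (a + 1)) (j : Fin (b + 1)) (P : Ideal (Co a b))
    (w : Fin n → Ix a b → ℂ) : Prop :=
  ∀ q, w q (Sum.inl i) = 1 ∧ w q (Sum.inr j) = 1 ∧ ∀ F ∈ P, eval (w q) F = 0

/-- **The final statement.** -/
def Final : Prop :=
  ∀ (a b : ℕ) (P : Ideal (Co a b)) (α β γ : ℕ), Surf P α β γ → Normal P → Nef P →
    2 * β < α + γ →
    (∃ i j, X (Sum.inl i) ∉ P ∧ X (Sum.inr j) ∉ P) ∧
    ∃ n₀ : ℕ, ∀ n, n₀ ≤ n → ∀ i j, X (Sum.inl i) ∉ P → X (Sum.inr j) ∉ P →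
      ∃ H : ℕ → MvPolynomial (Fin n × Ix a b) ℂ,
        (∃ w : Fin n → Ix a b → ℂ, Tuple i j P w ∧ ∀ k, eval (fun p => w p.1 p.2) (H k) ≠ 0) ∧
        ∀ w : Fin n → Ix a b → ℂ, Tuple i j P w →
          (∀ k, eval (fun p => w p.1 p.2) (H k) ≠ 0) →
          Function.Injective w ∧
          ∀ (Q : Ideal (Co a b)) (dA dB : ℝ), P ≤ Q → Curv Q dA dB →
            ∀ m : Fin n → ℝ, (∀ q, IsMult i j Q (w q) (m q)) →
              √(((α : ℝ) - 2 * β + γ) / n) * ∑ q, m q ≤ dA - dB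

/-! ### The model of `X` in its function field -/

/-- `FF` is the function field of `X`, `π` sends `x_k, y_l` to `x_k / x_i, y_l / y_j` -/
structure Mod (P : Ideal (Co a b)) (i : Fin (a + 1)) (j : Fin (b + 1)) {FF : Type} [Field FF]
    [Algebra ℂ FF] (π : Co a b →ₐ[ℂ] FF) : Prop where
  prime : P.IsPrime
  hom : BHom P
  hi : X (Sum.inl i) ∉ P
  hj : X (Sum.inr j) ∉ P
  ker : ∀ f, π f = 0 ↔ f ∈ chart i j P
  frac : ∀ z : FF, ∃ f g, π g ≠ 0 ∧ z * π g = π f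

variable {FF : Type} [Field FF] [Algebra ℂ FF]

/-- the dehomogenised forms of bidegree `(u, v)` -/
noncomputable def TT (π : Co a b →ₐ[ℂ] FF) (u v : ℕ) : Submodule ℂ FF :=
  (bh a b u v).map π.toLinearMap

/-- the sections of `m L = O(m, -m)`: the `ψ` with `ψ T(c, c + m) ⊆ T(c + m, c)` for some `c`.
(If `Mod P i j π`, then `ψ ∈ RR π m` iff `ψ T(u, v + m) ⊆ T(u + m, v)` for some `u, v`, iff for all
large `u, v`, and `RR π m ⊆ π(Co a b)`.) -/
def Sec (π : Co a b →ₐ[ℂ] FF) (m : ℕ) (ψ : FF) : Prop :=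
  ∃ c : ℕ, ∀ f ∈ TT π c (c + m), ψ * f ∈ TT π (c + m) c

/-- `V` separates the jets of order `s` at the points `w q` of the affine scheme of `J` -/
def SepV {σ : Type} {n : ℕ} (J : Ideal (MvPolynomial σ ℂ)) (V : MvPolynomial σ ℂ → Prop) (s : ℕ)
    (w : Fin n → σ → ℂ) : Prop :=
  ∀ q (f : MvPolynomial σ ℂ), ∃ F : MvPolynomial σ ℂ, V F ∧ F - f ∈ J ⊔ mx (w q) ^ s ∧
    ∀ q', q' ≠ q → F ∈ J ⊔ mx (w q') ^ s

/-- the rank of the sections of `m L` over the field `κ = ℂ(g)` of constants -/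
noncomputable def rk (π : Co a b →ₐ[ℂ] FF) (g : FF) (m : ℕ) : ℕ :=
  finrank (IntermediateField.adjoin ℂ {g})
    (Submodule.span (IntermediateField.adjoin ℂ {g}) {ψ : FF | Sec π m ψ})

end Pool.Agent.TH306.N4
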