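import Pool.Agent.TH306.N4.Fin
import Pool.Agent.TH306.N4.Upper
import Pool.Agent.TH306.N4.FinE
import Pool.Agent.TH471.N4.S4F
import Pool.Agent.TH471.N4.U4
import Pool.Agent.TH471.N4.U5
import Pool.Agent.TH880.N4.S6
import Pool.Agent.TH611.M5.S9
import Pool.Agent.TH279.GR.S7
import Pool.Agent.TH862.N4.J3
import Pool.Agent.TH266.NS.Main
import Pool.Agent.TH552.NB.Plane1

/-! All pieces except `S1`, `S3`, `U2`, `U3`, `U6`. -/

set_option autoImplicit false

open MvPolynomial Module Filter Topology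

namespace Pool.Agent.TH306.N4

open Pool.Agent.TH279.GR Pool.Agent.TH880.NB

theorem j3 : Pool.Agent.TH471.N4.J3 := by
  intro K _ _ W _ h1 a b c q hq hind hq' ha hb hc t
  exact Pool.Agent.TH862.N4.growth_three h1 hq hind hq' ha hb hc t

theorem s6 : S6 := by
  intro a b P i j FF _ _ π hM n m s hs w hw hinj hsep Q dA dB hPQ hQ hnef μ hμ
  exact Pool.Agent.TH880.N4.s6 P i j π hM n m s hs w hw hinj hsep Q dA dB hPQ hQ hnef μ hμ

theorem pa (r n : ℕ) (hr : 1 ≤ r) (hn : 4 * r ≤ n) (h9 : 9 ≤ n) : PA n 0 r := by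
  rcases Nat.lt_or_ge r 2 with h | h
  · have : r = 1 := by omega
    subst this
    have h1 := Pool.Agent.TH552.NB.PA_one h9
    exact_mod_cast h1
  · exact Pool.Agent.TH266.NS.PA_all h hn

theorem final_of13 (h1 : S1) (h3 : S3) : Final :=
  final_of Pool.Agent.TH880.N4.s0 h1 h3 (Pool.Agent.TH471.N4.s4 j3) s6
    Pool.Agent.TH279.GR.S7b.s7 Pool.Agent.TH611.M5.s9
    (fun _ _ _ _ _ hp hP hi hj => Pool.Agent.TH611.M5.exists_Mod hp hP hi hj) pa

theorem finalE_of' (h1 : S1) (h3 : S3) (h2 : U2) (h3' : U3) (h6 : U6) : FinalE :=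
  finalE_of (final_of13 h1 h3)
    (upper_of Pool.Agent.TH880.N4.s0 Pool.Agent.TH279.GR.S7b.s7 h2 h3'
      Pool.Agent.TH471.N4.u5 h6) (Pool.Agent.TH471.N4.u4 j3)

end Pool.Agent.TH306.N4
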