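import Pool.Agent.TH306.N4.FinE
import Pool.Agent.TH306.N4.StmtsV

/-! The final statement for all nef `L`, including `L² = 0`. -/

set_option autoImplicit false

open MvPolynomial Module Filter Topology

namespace Pool.Agent.TH306.N4

open Pool.Agent.TH279.GR Pool.Agent.TH611.M5

/-- the upper bound for `L² = 0` (helper611) -/
def Up0 : Prop :=
  ∀ (a b : ℕ) (P : Ideal (Co a b)) (α β γ : ℕ), Surf P α β γ → Nef P → 2 * β = α + γ →
    ∀ i j, X (Sum.inl i) ∉ P → X (Sum.inr j) ∉ P → ∀ n : ℕ, 1 ≤ n →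
    ∀ w : Fin n → Ix a b → ℂ, Tuple i j P w → (∀ q, SmoothAt P i j (w q)) →
      ∀ ε : ℝ, 0 < ε → ∃ (Q : Ideal (Co a b)) (dA dB : ℝ) (μ : Fin n → ℝ), P ≤ Q ∧
        Curv Q dA dB ∧ (∀ q, IsMult i j Q (w q) (μ q)) ∧ 0 < ∑ q, μ q ∧
        dA - dB ≤ ε * ∑ q, μ q

/-- a non-constant function on the chart -/
def NonConst : Prop :=
  ∀ (a b : ℕ) (P : Ideal (Co a b)) (α β γ : ℕ), Surf P α β γ → ∀ i j, X (Sum.inl i) ∉ P →
    X (Sum.inr j) ∉ P → ∃ f : Co a b, ∀ c : ℂ, f - C c ∉ chart i j P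

/-- **The final statement for all nef divisors.** -/
def FinalZ : Prop :=
  ∀ (a b : ℕ) (P : Ideal (Co a b)) (α β γ : ℕ), Surf P α β γ → Normal P → Nef P →
    2 * β ≤ α + γ ∧ (∃ i j, X (Sum.inl i) ∉ P ∧ X (Sum.inr j) ∉ P) ∧
    ∃ n₀ : ℕ, ∀ n, n₀ ≤ n → ∀ i j, X (Sum.inl i) ∉ P → X (Sum.inr j) ∉ P →
      ∃ H : ℕ → MvPolynomial (Fin n × Ix a b) ℂ,
        (∃ w : Fin n → Ix a b → ℂ, Tuple i j P w ∧ ∀ k, eval (fun p => w p.1 p.2) (H k) ≠ 0) ∧
        ∀ w : Fin n → Ix a b → ℂ, Tuple i j P w →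
          (∀ k, eval (fun p => w p.1 p.2) (H k) ≠ 0) →
          Function.Injective w ∧ IsGLB (ratios i j P w) (√(((α : ℝ) - 2 * β + γ) / n))

theorem eval_ren {a b n : ℕ} (w : Fin n → Ix a b → ℂ) (q : Fin n) (f : Co a b) :
    eval (fun p : Fin n × Ix a b => w p.1 p.2) (rename (fun t => (q, t)) f) = eval (w q) f := by
  rw [eval_rename]
  rfl

/-- the case `L² = 0` -/
theorem zero_case (hU : Up0) (h4 : U4) (hnc : NonConst) {a b : ℕ} {P : Ideal (Co a b)}
    {α β γ : ℕ} (hX : Surf P α β γ) (hnef : Nef P) (hL : 2 * β = α + γ) {n : ℕ} (hn : 1 ≤ n)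
    {i : Fin (a + 1)} {j : Fin (b + 1)} (hi : X (Sum.inl i) ∉ P) (hj : X (Sum.inr j) ∉ P) :
    ∃ H : ℕ → MvPolynomial (Fin n × Ix a b) ℂ,
        (∃ w : Fin n → Ix a b → ℂ, Tuple i j P w ∧ ∀ k, eval (fun p => w p.1 p.2) (H k) ≠ 0) ∧
        ∀ w : Fin n → Ix a b → ℂ, Tuple i j P w →
          (∀ k, eval (fun p => w p.1 p.2) (H k) ≠ 0) →
          Function.Injective w ∧ IsGLB (ratios i j P w) (√(((α : ℝ) - 2 * β + γ) / n)) := by
  classical
  obtain ⟨h, hh, hsm⟩ := h4 a b P α β γ hX i j hi hj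
  obtain ⟨f, hf⟩ := hnc a b P α β γ hX i j hi hj
  have hJ := chart_prime hX.prime hX.hom hi hj
  obtain ⟨z, hz, hzh⟩ := exists_point_countable (ι := Unit) (chart i j P) hJ (fun _ => h)
    (fun _ => hh)
  obtain ⟨z', hz', hzf⟩ := exists_point_countable (ι := Unit) (chart i j P) hJ
    (fun _ => f - C (eval z f)) (fun _ => hf _)
  have hzz : eval z' f ≠ eval z f := by
    have := hzf ()
    rw [map_sub, eval_C] at this
    exact sub_ne_zero.1 this
  -- the polynomials
  let G : (Fin n × Fin n) → MvPolynomial (Fin n × Ix a b) ℂ := fun r =>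
    if r.1 = r.2 then 1 else rename (fun t => (r.1, t)) f - rename (fun t => (r.2, t)) f
  let G0 : MvPolynomial (Fin n × Ix a b) ℂ := ∏ q : Fin n, rename (fun t => (q, t)) h
  have hev : ∀ w : Fin n → Ix a b → ℂ, eval (fun p => w p.1 p.2) G0 = ∏ q, eval (w q) h := by
    intro w
    rw [map_prod]
    exact Finset.prod_congr rfl fun q _ => eval_ren w q h
  let K : Option (Fin n × Fin n) → MvPolynomial (Fin n × Ix a b) ℂ := fun r => r.elim G0 G
  obtain ⟨w1, hw1, hw1H⟩ := exists_tuple_countable (chart i j P) hJ K (fun k => by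
    rcases k with _ | r
    · exact ⟨fun _ => z, fun _ => hz,
        ne_of_eq_of_ne (hev fun _ => z) (Finset.prod_ne_zero_iff.2 fun q _ => hzh ())⟩
    · by_cases hr : r.1 = r.2
      · refine ⟨fun _ => z, fun _ => hz, ?_⟩
        simp only [K, Option.elim, G, if_pos hr, map_one]
        exact one_ne_zero
      · refine ⟨fun q => if q = r.1 then z' else z, fun q => ?_, ?_⟩
        · show ∀ g ∈ chart i j P, (eval (if q = r.1 then z' else z)) g = 0
          split_ifs
          · exact hz'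
          · exact hz
        · simp only [K, Option.elim, G, if_neg hr]
          rw [map_sub]
          have e1 := eval_ren (fun q => if q = r.1 then z' else z) r.1 f
          have e2 := eval_ren (fun q => if q = r.1 then z' else z) r.2 f
          rw [if_pos rfl] at e1
          rw [if_neg (fun h => hr h.symm)] at e2
          rw [e1, e2]
          exact sub_ne_zero.2 hzz)
  -- all of them in one polynomial
  refine ⟨fun _ => ∏ r, K r, ⟨w1, tuple_iff.2 hw1, fun _ => ?_⟩, fun w hw hwH => ?_⟩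
  · rw [map_prod]
    exact Finset.prod_ne_zero_iff.2 fun r _ => hw1H r
  have hK : ∀ r, eval (fun p => w p.1 p.2) (K r) ≠ 0 := by
    have h1 := hwH 0
    rw [map_prod] at h1
    exact fun r => Finset.prod_ne_zero_iff.1 h1 r (Finset.mem_univ r)
  refine ⟨fun q q' hqq => ?_, ?_⟩
  · by_contra hne
    have h1 := hK (some (q, q'))
    simp only [K, Option.elim, G, if_neg hne] at h1
    rw [map_sub, eval_ren w q f, eval_ren w q' f, hqq] at h1
    exact h1 (sub_self _)
  have hsmq : ∀ q, SmoothAt P i j (w q) := by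
    intro q
    refine hsm (w q) (tuple_iff.1 hw q) ?_
    have h3 := hK none
    rw [show K none = G0 from rfl, hev] at h3
    exact Finset.prod_ne_zero_iff.1 h3 q (Finset.mem_univ q)
  have hup := hU a b P α β γ hX hnef hL i j hi hj n hn w hw hsmq
  have hzero : √(((α : ℝ) - 2 * β + γ) / n) = 0 := by
    have h1 : ((2 * β : ℕ) : ℝ) = ((α + γ : ℕ) : ℝ) := by rw [hL]
    push_cast at h1
    have h2 : (α : ℝ) - 2 * β + γ = 0 := by linarith
    rw [h2, zero_div, Real.sqrt_zero]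
  rw [hzero]
  constructor
  · rintro x ⟨Q, dA, dB, μ, hPQ, hQ, hμ, hpos, rfl⟩
    have h1 := hnef Q dA dB hPQ hQ
    exact div_nonneg (by linarith) hpos.le
  · intro y hy
    refine le_of_forall_pos_le_add fun ε hε => ?_
    obtain ⟨Q, dA, dB, μ, hPQ, hQ, hμ, hpos, hle⟩ := hup ε hε
    refine (hy ⟨Q, dA, dB, μ, hPQ, hQ, hμ, hpos, rfl⟩).trans ?_
    rw [div_le_iff₀ hpos, zero_add]
    exact hle

theorem finalZ_of (hE : FinalE) (hsq : SqNonneg) (hU : Up0) (h4 : U4) (hnc : NonConst) :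
    FinalZ := by
  intro a b P α β γ hX hN hnef
  have hL := hsq a b P α β γ hX hnef
  refine ⟨hL, exists_ij hX, ?_⟩
  rcases hL.eq_or_lt with h | h
  · exact ⟨1, fun n hn i j hi hj => zero_case hU h4 hnc hX hnef h hn hi hj⟩
  · exact (hE a b P α β γ hX hN hnef h).2

end Pool.Agent.TH306.N4
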