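import Pool.Agent.TH306.N4.FinZ
import Pool.Agent.TH471.N4.Tr

/-! A non-constant function on the chart. -/

set_option autoImplicit false

open MvPolynomial Module Filter Topology

namespace Pool.Agent.TH306.N4

open Pool.Agent.TH279.GR Pool.Agent.TH611.M5

theorem nonConst : NonConst := by
  intro a b P α β γ hX i j hi hj
  obtain ⟨FF, _, _, π, hM⟩ := exists_Mod hX.prime hX.hom hi hj
  obtain ⟨y, hy⟩ := Pool.Agent.TH471.N4.not_alg hX hM 1
  by_contra hcon
  push Not at hcon
  choose c hc using hcon
  have hconst : ∀ f : Co a b, π f = algebraMap ℂ FF (c f) := by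
    intro f
    have h1 := (hM.ker _).2 (hc f)
    rw [map_sub, sub_eq_zero] at h1
    rw [h1]
    exact π.commutes (c f)
  obtain ⟨f, g, hg, hfg⟩ := hM.frac y
  apply hy
  have h1 : y = algebraMap ℂ FF (c f / c g) := by
    rw [hconst g] at hfg hg
    rw [hconst f] at hfg
    rw [map_div₀, eq_div_iff hg]
    exact hfg
  rw [h1, IsScalarTower.algebraMap_apply ℂ (IntermediateField.adjoin ℂ {(1 : FF)}) FF]
  exact isAlgebraic_algebraMap _

end Pool.Agent.TH306.N4
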