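import Pool.Agent.TH306.N4.StmtsV
import Pool.Agent.TH306.N4.Upper

/-! From a section of `m A - p B` with high multiplicities to a curve. -/

set_option autoImplicit false

open MvPolynomial Module Filter Topology

namespace Pool.Agent.TH306.N4

open Pool.Agent.TH279.GR

variable {a b : ℕ}

/-- a section with high multiplicities -/
theorem exists_section2 {P : Ideal (Co a b)} {i : Fin (a + 1)} {j : Fin (b + 1)} {FF : Type}
    [Field FF] [Algebra ℂ FF] {π : Co a b →ₐ[ℂ] FF} {V : Submodule ℂ FF}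
    (hrange : ∀ ψ ∈ V, ∃ F, π F = ψ)
    (hfin : FiniteDimensional ℂ V) {n s : ℕ} (hs : 1 ≤ s) (w : Fin n → Ix a b → ℂ)
    (hsm : ∀ q, SmoothAt P i j (w q)) (hcard : n * (s * (s + 1) / 2) < finrank ℂ V) :
    ∃ F : Co a b, π F ∈ V ∧ π F ≠ 0 ∧ ∀ q, F ∈ chart i j P ⊔ mx (w q) ^ s := by
  classical
  let B := Module.finBasis ℂ V
  have hF : ∀ l, ∃ F, π F = (B l : FF) := fun l => hrange _ (B l).2
  choose F hF using hF
  have hpos : 0 < s * (s + 1) / 2 := by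
    apply Nat.div_pos _ (by norm_num)
    nlinarith
  have hfq : ∀ q, Module.Finite ℂ (Co a b ⧸ (chart i j P ⊔ mx (w q) ^ s)) := fun q =>
    Module.finite_of_finrank_pos (by rw [hsm q s]; exact hpos)
  let T : (Fin (finrank ℂ V) → ℂ) →ₗ[ℂ] (∀ q, Co a b ⧸ (chart i j P ⊔ mx (w q) ^ s)) :=
    LinearMap.pi fun q => (Ideal.Quotient.mkₐ ℂ (chart i j P ⊔ mx (w q) ^ s)).toLinearMap.comp
      (Fintype.linearCombination ℂ F)
  have hker : LinearMap.ker T ≠ ⊥ := by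
    apply LinearMap.ker_ne_bot_of_finrank_lt
    rw [Module.finrank_pi_fintype, Module.finrank_fin_fun]
    have : ∑ q, finrank ℂ (Co a b ⧸ (chart i j P ⊔ mx (w q) ^ s)) = n * (s * (s + 1) / 2) := by
      rw [Finset.sum_congr rfl fun q _ => hsm q s]
      simp
    rw [this]
    exact hcard
  obtain ⟨c, hc, hc0⟩ := Submodule.exists_mem_ne_zero_of_ne_bot hker
  have hπ : π (Fintype.linearCombination ℂ F c) = ((∑ l, c l • B l : V) : FF) := by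
    rw [Fintype.linearCombination_apply, map_sum, Submodule.coe_sum]
    refine Finset.sum_congr rfl fun l _ => ?_
    rw [map_smul, hF, Submodule.coe_smul]
  refine ⟨Fintype.linearCombination ℂ F c, ?_, ?_, fun q => ?_⟩
  · rw [hπ]
    exact Subtype.mem _
  · rw [hπ]
    intro h0
    apply hc0
    have h1 : ∑ l, c l • B l = 0 := Subtype.ext h0
    funext l
    exact Fintype.linearIndependent_iff.1 B.linearIndependent c h1 l
  · have h1 := congrFun (LinearMap.mem_ker.1 hc) q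
    exact Ideal.Quotient.eq_zero_iff_mem.1 h1

theorem upperG_of (v0 : V0) (v2 : V2) (v3 : V3) (v7 : V7) (hu5 : U5) (hu6 : U6) : UpperG := by
  classical
  intro a b P α β γ hX hnef i j FF _ _ π hπ n hn w hw hsm m p s hs hcard
  have hn0 : (0 : ℝ) < n := by exact_mod_cast hn
  obtain ⟨hfin, -⟩ := v7 a b P α β γ hX hnef i j FF π hπ
  obtain ⟨hmem, hrange⟩ := v0 a b P i j FF π hπ m p
  obtain ⟨F, hF1, hF2, hF3⟩ := exists_section2 (fun ψ hψ => hrange ψ ((hmem ψ).1 hψ)) (hfin m p)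
    hs w hsm hcard
  obtain ⟨hN1, hN2, hN3, hN4⟩ := v2 a b P i j FF π hπ m p F ((hmem _).1 hF1) hF2
  obtain ⟨l, hl1, hl2⟩ := Pool.Agent.TH279.GR.G1.chain_exists hN1
    (fun _ _ _ => trivial : BHom (⊤ : Ideal (Co a b))) le_top
  have hlt : ∀ t ∈ l, P < t.1 := fun t ht => lt_of_lt_of_le hN2 (hl2 t ht).2.2
  -- degrees
  have hdeg : ∀ Q : Ideal (Co a b), ∃ d : ℕ × ℕ, (Q.IsPrime → BHom Q → P < Q →
      Pool.Agent.TH279.GR.Rel Q →
      ∃ c0 : ℤ, Lin Q d.1 d.2 c0) ∧ (¬ Pool.Agent.TH279.GR.Rel Q → d.1 = 0 ∧ d.2 = 0) := by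
    intro Q
    by_cases h : Q.IsPrime ∧ BHom Q ∧ P < Q ∧ Pool.Agent.TH279.GR.Rel Q
    · obtain ⟨dA, dB, c, hc⟩ := Pool.Agent.TH279.GR.G5.surf_lin hX h.1 h.2.1 h.2.2.2 h.2.2.1
      exact ⟨(dA, dB), fun _ _ _ _ => ⟨c, hc⟩, fun hr => absurd h.2.2.2 hr⟩
    · exact ⟨(0, 0), fun h1 h2 h3 h4 => absurd ⟨h1, h2, h3, h4⟩ h, fun _ => ⟨rfl, rfl⟩⟩
  choose d hd1 hd2 using hdeg
  -- multiplicities
  have hch : ∀ q, ∀ f ∈ chart i j P, eval (w q) f = 0 := by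
    intro q f hf
    have h1 : chart i j P ≤ RingHom.ker (eval (w q)) := by
      refine sup_le (fun g hg => (hw q).2.2 g hg) ?_
      rw [Ideal.span_le]
      rintro g (rfl | rfl)
      · simp [RingHom.mem_ker, (hw q).1]
      · simp [RingHom.mem_ker, (hw q).2.1]
    exact h1 hf
  have hmul : ∀ (q : Fin n) (Q : Ideal (Co a b)), ∃ μ : ℝ, Q.IsPrime → BHom Q → P < Q →
      0 ≤ μ ∧ IsMult i j Q (w q) μ ∧
        ((¬ Pool.Agent.TH279.GR.Rel Q ∨ ∃ c0 : ℤ, Lin Q 0 0 c0) → μ = 0) := by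
    intro q Q
    by_cases h : Q.IsPrime ∧ BHom Q ∧ P < Q
    · obtain ⟨⟨μ, hμ0, hμ⟩, h2⟩ := hu6 a b P α β γ hX i j (w q) (hch q) (hsm q) Q h.1 h.2.1 h.2.2
      exact ⟨μ, fun _ _ _ => ⟨hμ0, hμ, fun h3 => tendsto_nhds_unique hμ (h2 h3)⟩⟩
    · exact ⟨0, fun h1 h2 h3 => absurd ⟨h1, h2, h3⟩ h⟩
  choose μ hμ using hmul
  have hsum := v3 a b P α β γ hX m p _ hN1 hN2 hN4 l hl1 (fun Q => (d Q).1) (fun Q => (d Q).2)
    (fun t ht hr => hd1 t.1 (hl2 t ht).1 (hl2 t ht).2.1 (hlt t ht) hr)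
    (fun t _ hr => hd2 t.1 hr)
  have hmult : ∀ q, (s : ℝ) ≤ (l.map fun t => μ q t.1).sum := fun q =>
    hu5 a b P i j (w q) hX.prime hX.hom (hch q) (hsm q) s F (hF3 q)
      (fun h => hF2 ((hπ.ker F).2 h)) _ hN1 hN3 l hl1 (μ q)
      (fun t ht => (hμ q t.1 (hl2 t ht).1 (hl2 t ht).2.1 (hlt t ht)).2.1)
  have htot : (n : ℝ) * s ≤ (l.map fun t => ∑ q, μ q t.1).sum := by
    rw [← list_sum_comm l fun q t => μ q t.1]
    have h1 := Finset.sum_le_sum (s := Finset.univ) fun q _ => hmult q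
    simp only [Finset.sum_const, Finset.card_univ, Fintype.card_fin, nsmul_eq_mul] at h1
    exact h1
  have hμ0 : ∀ t ∈ l, 0 ≤ ∑ q, μ q t.1 := fun t ht => Finset.sum_nonneg fun q _ =>
    (hμ q t.1 (hl2 t ht).1 (hl2 t ht).2.1 (hlt t ht)).1
  have hd0 : ∀ t ∈ l, (0 : ℝ) ≤ ((d t.1).1 : ℝ) - (d t.1).2 := by
    intro t ht
    by_cases hr : Pool.Agent.TH279.GR.Rel t.1
    · obtain ⟨c0, hc0⟩ := hd1 t.1 (hl2 t ht).1 (hl2 t ht).2.1 (hlt t ht) hr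
      have h1 := Pool.Agent.TH279.GR.G5.nef_le hnef (hlt t ht).le (hl2 t ht).1 (hl2 t ht).2.1 hc0
      have h2 : ((d t.1).2 : ℝ) ≤ (d t.1).1 := by exact_mod_cast h1
      linarith
    · rw [(hd2 t.1 hr).1, (hd2 t.1 hr).2]
      simp
  obtain ⟨M, hM⟩ : ∃ M : ℝ, M = m * ((α : ℝ) - β) - p * ((β : ℝ) - γ) := ⟨_, rfl⟩
  rw [← hM] at hsum ⊢
  have hM0 : 0 ≤ M := by
    rw [← hsum]
    refine List.sum_nonneg ?_
    intro x hx
    obtain ⟨t, ht, rfl⟩ := List.mem_map.1 hx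
    exact hd0 t ht
  have hs0 : (0 : ℝ) < s := by exact_mod_cast hs
  have hns : 0 < (n : ℝ) * s := by positivity
  -- the good component
  obtain ⟨t, ht, ht1, ht2⟩ : ∃ t ∈ l, 0 < ∑ q, μ q t.1 ∧
      (((d t.1).1 : ℝ) - (d t.1).2) * (n * s) ≤ M * ∑ q, μ q t.1 := by
    by_contra hcon
    push Not at hcon
    have h1 : ∀ t ∈ l, M * ∑ q, μ q t.1 ≤ (((d t.1).1 : ℝ) - (d t.1).2) * (n * s) := by
      intro t ht
      rcases (hμ0 t ht).eq_or_lt with h | h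
      · rw [← h, mul_zero]
        exact mul_nonneg (hd0 t ht) hns.le
      · exact (hcon t ht h).le
    have h2 : ∃ t ∈ l, 0 < ∑ q, μ q t.1 := by
      by_contra hcon2
      push Not at hcon2
      have h3 : (l.map fun t => ∑ q, μ q t.1).sum ≤ (l.map fun _ => (0 : ℝ)).sum :=
        List.sum_le_sum fun t ht => hcon2 t ht
      have h4 : (l.map fun _ => (0 : ℝ)).sum = 0 := by simp
      rw [h4] at h3
      linarith
    have h3 : (l.map fun t => M * ∑ q, μ q t.1).sum <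
        (l.map fun t => (((d t.1).1 : ℝ) - (d t.1).2) * (n * s)).sum := by
      obtain ⟨t, ht, ht1⟩ := h2
      exact List.sum_lt_sum _ _ h1 ⟨t, ht, hcon t ht ht1⟩
    rw [List.sum_map_mul_left, List.sum_map_mul_right, hsum] at h3
    have h4 := mul_le_mul_of_nonneg_left htot hM0
    linarith
  have hp := (hl2 t ht).1
  have hb := (hl2 t ht).2.1
  have hPt := hlt t ht
  have hμt : ¬ (¬ Pool.Agent.TH279.GR.Rel t.1 ∨ ∃ c0 : ℤ, Lin t.1 0 0 c0) := by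
    intro h
    have h1 : ∑ q, μ q t.1 = 0 := Finset.sum_eq_zero fun q _ => (hμ q t.1 hp hb hPt).2.2 h
    rw [h1] at ht1
    exact lt_irrefl _ ht1
  push Not at hμt
  obtain ⟨hrel, hnl⟩ := hμt
  obtain ⟨c0, hc0⟩ := hd1 t.1 hp hb hPt hrel
  have hpos : 0 < (d t.1).1 + (d t.1).2 := by
    by_contra h
    have h1 : (d t.1).1 = 0 := by omega
    have h2 : (d t.1).2 = 0 := by omega
    rw [h1, h2] at hc0
    exact hnl c0 hc0
  exact ⟨t.1, (d t.1).1, (d t.1).2, fun q => μ q t.1, hPt.le,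
    Pool.Agent.TH279.GR.G5.Curv.of_lin hp hb hc0 hpos,
    fun q => (hμ q t.1 hp hb hPt).2.1, ht1, ht2⟩

/-- nonvanishing sections force `(m A - p B) · L ≥ 0` -/
theorem section_nonneg (v0 : V0) (v2 : V2) (v3 : V3) {P : Ideal (Co a b)} {α β γ : ℕ}
    (hX : Surf P α β γ) (hnef : Nef P) {i : Fin (a + 1)} {j : Fin (b + 1)} {FF : Type} [Field FF]
    [Algebra ℂ FF] {π : Co a b →ₐ[ℂ] FF} (hπ : Mod P i j π) {m p : ℕ}
    (h : SecM2 π m p ≠ ⊥) : 0 ≤ m * ((α : ℝ) - β) - p * ((β : ℝ) - γ) := by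
  classical
  obtain ⟨hmem, hrange⟩ := v0 a b P i j FF π hπ m p
  obtain ⟨ψ, hψ, hψ0⟩ := Submodule.exists_mem_ne_zero_of_ne_bot h
  obtain ⟨F, rfl⟩ := hrange ψ ((hmem ψ).1 hψ)
  obtain ⟨hN1, hN2, hN3, hN4⟩ := v2 a b P i j FF π hπ m p F ((hmem _).1 hψ) hψ0
  obtain ⟨l, hl1, hl2⟩ := Pool.Agent.TH279.GR.G1.chain_exists hN1
    (fun _ _ _ => trivial : BHom (⊤ : Ideal (Co a b))) le_top
  have hlt : ∀ t ∈ l, P < t.1 := fun t ht => lt_of_lt_of_le hN2 (hl2 t ht).2.2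
  have hdeg : ∀ Q : Ideal (Co a b), ∃ d : ℕ × ℕ, (Q.IsPrime → BHom Q → P < Q →
      Pool.Agent.TH279.GR.Rel Q →
      ∃ c0 : ℤ, Lin Q d.1 d.2 c0) ∧ (¬ Pool.Agent.TH279.GR.Rel Q → d.1 = 0 ∧ d.2 = 0) := by
    intro Q
    by_cases h : Q.IsPrime ∧ BHom Q ∧ P < Q ∧ Pool.Agent.TH279.GR.Rel Q
    · obtain ⟨dA, dB, c, hc⟩ := Pool.Agent.TH279.GR.G5.surf_lin hX h.1 h.2.1 h.2.2.2 h.2.2.1
      exact ⟨(dA, dB), fun _ _ _ _ => ⟨c, hc⟩, fun hr => absurd h.2.2.2 hr⟩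
    · exact ⟨(0, 0), fun h1 h2 h3 h4 => absurd ⟨h1, h2, h3, h4⟩ h, fun _ => ⟨rfl, rfl⟩⟩
  choose d hd1 hd2 using hdeg
  have hsum := v3 a b P α β γ hX m p _ hN1 hN2 hN4 l hl1 (fun Q => (d Q).1) (fun Q => (d Q).2)
    (fun t ht hr => hd1 t.1 (hl2 t ht).1 (hl2 t ht).2.1 (hlt t ht) hr)
    (fun t _ hr => hd2 t.1 hr)
  rw [← hsum]
  refine List.sum_nonneg ?_
  intro x hx
  obtain ⟨t, ht, rfl⟩ := List.mem_map.1 hx
  by_cases hr : Pool.Agent.TH279.GR.Rel t.1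
  · obtain ⟨c0, hc0⟩ := hd1 t.1 (hl2 t ht).1 (hl2 t ht).2.1 (hlt t ht) hr
    have h1 := Pool.Agent.TH279.GR.G5.nef_le hnef (hlt t ht).le (hl2 t ht).1 (hl2 t ht).2.1 hc0
    have h2 : ((d t.1).2 : ℝ) ≤ (d t.1).1 := by exact_mod_cast h1
    show (0 : ℝ) ≤ ((d t.1).1 : ℝ) - (d t.1).2
    linarith
  · show (0 : ℝ) ≤ ((d t.1).1 : ℝ) - (d t.1).2
    rw [(hd2 t.1 hr).1, (hd2 t.1 hr).2]
    simp

end Pool.Agent.TH306.N4
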