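import Pool.Agent.TH306.N4.All
import Pool.Agent.TH306.N4.UpperG
import Pool.Agent.TH306.N4.FinZ
import Pool.Agent.TH306.N4.NonC
import Pool.Agent.TH279.GR.S7v
import Pool.Agent.TH880.N4.V2
import Pool.Agent.TH611.M5.U6
import Pool.Agent.TH611.M5.Up0
import Pool.Agent.TH13.N4.S3
import Pool.Agent.TH13.N4.Sq
import Pool.Agent.TH471.N4.S1

/-! All pieces: the lower bound, and everything from `V3`. -/

set_option autoImplicit false

open MvPolynomial Module Filter Topology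

namespace Pool.Agent.TH306.N4

open Pool.Agent.TH279.GR

/-- **The lower bound for all nef and big divisors.** -/
theorem final : Final := final_of13 Pool.Agent.TH471.N4.s1 Pool.Agent.TH13.N4.s3

theorem u2 : U2 := fun a b P i j FF _ _ π hM m F h1 h2 =>
  Pool.Agent.TH880.N4.v2 a b P i j FF π hM m m F h1 h2

theorem u3_of (v3 : V3) : U3 := by
  intro a b P α β γ hX m N hN hPN h l hl dA dB h1 h2
  rw [v3 a b P α β γ hX m m N hN hPN h l hl dA dB h1 h2]
  ring

theorem upperG (v3 : V3) : UpperG :=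
  upperG_of Pool.Agent.TH880.N4.v0 Pool.Agent.TH880.N4.v2 v3 Pool.Agent.TH279.GR.S7v.v7
    Pool.Agent.TH471.N4.u5 Pool.Agent.TH611.M5.u6

theorem secNonneg (v3 : V3) : Pool.Agent.TH13.N4.SecNonneg := by
  intro a b P α β γ hX hnef i j FF _ _ π hM m p ψ hψ hψ0
  exact section_nonneg Pool.Agent.TH880.N4.v0 Pool.Agent.TH880.N4.v2 v3 hX hnef hM
    ((Submodule.ne_bot_iff _).2 ⟨ψ, Submodule.subset_span hψ, hψ0⟩)

theorem sqNonneg (v3 : V3) : SqNonneg :=
  Pool.Agent.TH13.N4.sq Pool.Agent.TH880.N4.v0 Pool.Agent.TH279.GR.S7v.v7 (secNonneg v3)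

theorem up0 (v3 : V3) : Up0 :=
  Pool.Agent.TH611.M5.up0 (upperG v3) Pool.Agent.TH279.GR.S7v.v7 (secNonneg v3)

theorem finalZ_of' (v3 : V3) : FinalZ :=
  finalZ_of (finalE_of' Pool.Agent.TH471.N4.s1 Pool.Agent.TH13.N4.s3 u2 (u3_of v3)
    Pool.Agent.TH611.M5.u6) (sqNonneg v3) (up0 v3) (Pool.Agent.TH471.N4.u4 j3) nonConst

end Pool.Agent.TH306.N4
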