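import Pool.Agent.TH306.N4.AllZ
import Pool.Agent.TH471.N4.V3

/-! **The Biran–Szemberg equality for all nef divisors**, all pieces together. -/

set_option autoImplicit false

namespace Pool.Agent.TH306.N4

theorem finalZ : FinalZ := finalZ_of' Pool.Agent.TH471.N4.v3

end Pool.Agent.TH306.N4
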